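import Mathlib
import Pool.Agent.H27.Bal

namespace Pool.Agent.Results.MP_039f5e_co.Hadamard
open Pool.Agent.H27.Bal

theorem result : ∀ (n : ℕ) (L : List ℕ), (∀ m ∈ L, GoodOrder m) → 1 ≤ n →
    n + L.length.choose 2 ≤ L.sum → L.sum ≤ n + 3 → Q1At n :=
  sums

end Pool.Agent.Results.MP_039f5e_co.Hadamard
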