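import Mathlib
import Pool.Agent.H27.Bal

namespace Pool.Agent.Results.MP_039f5e_co.Window
open Pool.Agent.H27.Bal

theorem result : ∀ (n : ℕ) (r : ℝ), 1 ≤ n → 0 ≤ r →
    (2 * r < n + 2 ∨ (n : ℝ) + (Nat.log 2 n : ℝ) + 1 ≤ 2 * r) → Q1Pair n r :=
  window

end Pool.Agent.Results.MP_039f5e_co.Window
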